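import Mathlib

set_option autoImplicit false

/-!
# Represented matroids: ranks, closures, functionals (MP_367fb1_co)
-/

open Set Matroid Module Submodule

namespace Pool.Agent.H85.TX

variable {α : Type}

/-- The vectors `w i` over the field `𝔽` represent the matroid `M`: a subset of the ground set is
independent in `M` if and only if its vectors are linearly independent. -/
def Represents (𝔽 : Type) [Field 𝔽] {W : Type} [AddCommGroup W] [Module 𝔽 W] (w : α → W)
    (M : Matroid α) : Prop :=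
  ∀ I ⊆ M.E, M.Indep I ↔ LinearIndepOn 𝔽 w I

/-- `M` is representable over the field `𝔽`. -/
def RepresentableOver (𝔽 : Type) [Field 𝔽] (M : Matroid α) : Prop :=
  ∃ (W : Type) (_ : AddCommGroup W) (_ : Module 𝔽 W) (w : α → W), Represents 𝔽 w M

/-- `M` is regular: representable over every field. -/
def Regular (M : Matroid α) : Prop :=
  ∀ (𝔽 : Type) [Field 𝔽], RepresentableOver 𝔽 M

/-- `M` is 3-connected in the sense of Tutte: for `k = 1, 2` there is no partition `(X, Y)` of the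
ground set with `|X|, |Y| ≥ k` and `r(X) + r(Y) - r(M) ≤ k - 1`. -/
def ThreeConnected (M : Matroid α) : Prop :=
  ∀ k : ℕ, 1 ≤ k → k ≤ 2 → ∀ X Y : Set α, X ∪ Y = M.E → Disjoint X Y →
    (k : ℕ∞) ≤ X.encard → (k : ℕ∞) ≤ Y.encard → M.eRank + k ≤ M.eRk X + M.eRk Y

section rank

variable [Finite α] {𝔽 : Type} [Field 𝔽] {W : Type} [AddCommGroup W] [Module 𝔽 W] {w : α → W}
  {M : Matroid α}

/-- rank of a set of vectors -/
noncomputable def rk (𝔽 : Type) [Field 𝔽] {W : Type} [AddCommGroup W] [Module 𝔽 W] (w : α → W)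
    (X : Set α) : ℕ := finrank 𝔽 (span 𝔽 (w '' X))

instance finDimSpan (X : Set α) : FiniteDimensional 𝔽 (span 𝔽 (w '' X)) :=
  FiniteDimensional.span_of_finite 𝔽 (Set.toFinite _)

theorem indepOn_iff (I : Set α) : LinearIndepOn 𝔽 w I ↔ rk 𝔽 w I = I.ncard := by
  classical
  have : Fintype I := Fintype.ofFinite I
  rw [LinearIndepOn, linearIndependent_iff_card_eq_finrank_span]
  have h1 : (Set.range fun i : I => w i).finrank 𝔽 = rk 𝔽 w I := by
    unfold rk Set.finrank
    rw [Set.image_eq_range]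
  rw [h1, Set.ncard_eq_toFinset_card', Set.toFinset_card]
  exact eq_comm

omit [Finite α] in
theorem span_basis (h : Represents 𝔽 w M) {I X : Set α} (hI : M.IsBasis I X) :
    span 𝔽 (w '' X) = span 𝔽 (w '' I) := by
  apply le_antisymm
  · rw [span_le]
    rintro _ ⟨a, ha, rfl⟩
    by_contra hn
    have haI : a ∉ I := fun h' => hn (subset_span ⟨a, h', rfl⟩)
    have haE : a ∈ M.E := hI.subset_ground ha
    have h1 : LinearIndepOn 𝔽 w (insert a I) :=
      (linearIndepOn_insert haI).2 ⟨(h I hI.indep.subset_ground).1 hI.indep, hn⟩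
    have h2 : M.Indep (insert a I) :=
      (h _ (insert_subset haE hI.indep.subset_ground)).2 h1
    exact haI (hI.mem_of_insert_indep ha h2)
  · exact span_mono (Set.image_mono hI.subset)

theorem eRk_eq (h : Represents 𝔽 w M) {X : Set α} (hX : X ⊆ M.E) :
    M.eRk X = (rk 𝔽 w X : ℕ∞) := by
  obtain ⟨I, hI⟩ := M.exists_isBasis X hX
  have h1 := (indepOn_iff I).1 ((h I hI.indep.subset_ground).1 hI.indep)
  rw [hI.eRk_eq_encard]
  unfold rk at h1 ⊢
  rw [span_basis h hI, h1, (Set.toFinite I).cast_ncard_eq]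

theorem mem_closure_iff (h : Represents 𝔽 w M) {X : Set α} (hX : X ⊆ M.E) {a : α}
    (ha : a ∈ M.E) : a ∈ M.closure X ↔ w a ∈ span 𝔽 (w '' X) := by
  obtain ⟨I, hI⟩ := M.exists_isBasis X hX
  rw [← hI.closure_eq_closure, span_basis h hI, hI.indep.mem_closure_iff']
  by_cases haI : a ∈ I
  · exact ⟨fun _ => subset_span ⟨a, haI, rfl⟩, fun _ => ⟨ha, fun _ => haI⟩⟩
  · rw [h _ (insert_subset ha hI.indep.subset_ground), linearIndepOn_insert haI]
    have h1 := (h I hI.indep.subset_ground).1 hI.indep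
    tauto

/-- The functional of a triad. -/
theorem exists_functional (h : Represents 𝔽 w M) {x y z : α} (hc : M.IsCocircuit {x, y, z}) :
    ∃ φ : W →ₗ[𝔽] 𝔽, (∀ i ∈ M.E, i ∉ ({x, y, z} : Set α) → φ (w i) = 0) ∧
      ∀ a ∈ ({x, y, z} : Set α), φ (w a) ≠ 0 := by
  have hmin := isCocircuit_iff_minimal_compl_nonspanning.1 hc
  have hsub := hc.subset_ground
  set T : Set α := {x, y, z} with hT
  have hE : span 𝔽 (w '' M.E) = span 𝔽 (w '' M.E) := rfl
  -- adding one element of the triad to the complement gives a spanning set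
  have h1 : ∀ a ∈ T, ∀ b ∈ M.E, w b ∈ span 𝔽 (w '' (insert a (M.E \ T))) := by
    intro a ha b hb
    have h2 : M.Spanning (M.E \ (T \ {a})) := by
      by_contra hn
      have h3 := hmin.2 (y := T \ {a}) hn sdiff_subset
      exact (h3 ha).2 rfl
    have h4 : M.E \ (T \ {a}) = insert a (M.E \ T) := by
      ext b
      simp only [mem_sdiff, mem_insert_iff, mem_singleton_iff]
      constructor
      · rintro ⟨h5, h6⟩
        by_cases h7 : b = a
        · exact Or.inl h7
        · exact Or.inr ⟨h5, fun h8 => h6 ⟨h8, h7⟩⟩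
      · rintro (rfl | ⟨h5, h6⟩)
        · exact ⟨hsub ha, fun h8 => h8.2 rfl⟩
        · exact ⟨h5, fun h8 => h6 h8.1⟩
    rw [h4] at h2
    rw [← mem_closure_iff h (insert_subset (hsub ha) sdiff_subset) hb, h2.closure_eq]
    exact hb
  have h0 : ∀ a ∈ T, w a ∉ span 𝔽 (w '' (M.E \ T)) := by
    intro a ha hn
    apply hmin.1
    rw [spanning_iff_ground_subset_closure sdiff_subset]
    intro b hb
    rw [mem_closure_iff h sdiff_subset hb]
    have h5 := h1 a ha b hb
    rw [Set.image_insert_eq, span_insert_eq_span hn] at h5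
    exact h5
  have hx : x ∈ T := by simp [hT]
  obtain ⟨φ, hφx, hφ⟩ := Submodule.exists_le_ker_of_notMem (h0 x hx)
  refine ⟨φ, fun i hi hiT => ?_, fun a ha ha0 => ?_⟩
  · exact hφ (subset_span ⟨i, ⟨hi, hiT⟩, rfl⟩)
  · apply hφx
    have h6 : span 𝔽 (w '' (insert a (M.E \ T))) ≤ LinearMap.ker φ := by
      rw [Set.image_insert_eq, span_insert]
      apply sup_le _ hφ
      rw [span_singleton_le_iff_mem]
      exact ha0
    exact h6 (h1 a ha x (hsub hx))

end rank

/-- The matroid of a finite family of vectors. -/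
theorem exists_vecMatroid [Finite α] {𝔽 : Type} [Field 𝔽] {W : Type} [AddCommGroup W] [Module 𝔽 W]
    (w : α → W) (E : Set α) : ∃ M : Matroid α, M.E = E ∧ Represents 𝔽 w M := by
  refine ⟨(IndepMatroid.ofFinite (Set.toFinite E) (fun I => I ⊆ E ∧ LinearIndepOn 𝔽 w I)
    ⟨empty_subset _, linearIndepOn_empty 𝔽 w⟩ (fun I J hJ hIJ => ⟨hIJ.trans hJ.1, hJ.2.mono hIJ⟩)
    ?_ (fun I hI => hI.1)).matroid, rfl, ?_⟩
  · rintro I J ⟨hIE, hI⟩ ⟨hJE, hJ⟩ hlt
    by_contra hcon
    push Not at hcon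
    have h1 : span 𝔽 (w '' J) ≤ span 𝔽 (w '' I) := by
      rw [span_le]
      rintro _ ⟨a, ha, rfl⟩
      by_contra hn
      have haI : a ∉ I := fun h' => hn (subset_span ⟨a, h', rfl⟩)
      exact hcon a ha haI (insert_subset (hJE ha) hIE) ((linearIndepOn_insert haI).2 ⟨hI, hn⟩)
    have h2 := Submodule.finrank_mono h1
    have h3 := (indepOn_iff I).1 hI
    have h4 := (indepOn_iff J).1 hJ
    unfold rk at h3 h4
    omega
  · intro I hI
    show (I ⊆ E ∧ LinearIndepOn 𝔽 w I) ↔ _
    exact ⟨fun h => h.2, fun h => ⟨hI, h⟩⟩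

end Pool.Agent.H85.TX
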